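import Mathlib

set_option autoImplicit false

namespace Pool.Agent.Results.MP_5c5aaa_pr.NoPeriodic

open MeasureTheory ProbabilityTheory

variable {Ω : Type} [MeasurableSpace Ω] {A : Type} [MeasurableSpace A]

/-- the law of the field is invariant under every shift -/
def ShiftInvariant (P : Measure Ω) (X : Ω → ℤ × ℤ → A) : Prop :=
  ∀ v : ℤ × ℤ, P.map (fun ω u => X ω (u + v)) = P.map X

/-- finite dependence, with the sup norm distance on Z^2 -/
def FinitelyDependent (P : Measure Ω) (X : Ω → ℤ × ℤ → A) : Prop :=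
  ∃ k : ℕ, ∀ S T : Set (ℤ × ℤ), (∀ a ∈ S, ∀ b ∈ T, (k : ℝ) ≤ dist a b) →
    IndepFun (fun ω => fun v : S => X ω v) (fun ω => fun v : T => X ω v) P

/-- the support of the field -/
def supp (P : Measure Ω) (X : Ω → ℤ × ℤ → A) : Set (ℤ × ℤ → A) :=
  {x | ∀ B : Finset (ℤ × ℤ), 0 < P {ω | ∀ v ∈ B, X ω v = x v}}

/-- the stabiliser of a configuration under the shift action -/
def stab {A : Type} (x : ℤ × ℤ → A) : AddSubgroup (ℤ × ℤ) where
  carrier := {v | ∀ u, x (u + v) = x u}
  zero_mem' := fun u => by simp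
  add_mem' := fun {a b} ha hb u => by rw [← add_assoc, hb, ha]
  neg_mem' := fun {a} ha u => by rw [← ha (u + -a)]; simp

/-- periodic configuration -/
def Periodic {A : Type} (x : ℤ × ℤ → A) : Prop := (stab x).FiniteIndex

abbrev C := AddCircle (1 : ℝ)

noncomputable def r (x : C) : ℝ := (AddCircle.equivIco 1 0 x : ℝ)

lemma r_meas : Measurable r :=
  measurable_subtype_coe.comp (AddCircle.measurableEquivIco 1 0).measurable

lemma r_coe (x : C) : ((r x : ℝ) : C) = x := AddCircle.coe_equivIco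

lemma r_bd (x : C) : 0 ≤ r x ∧ r x < 1 := by
  have := (AddCircle.equivIco 1 0 x).2
  simpa [r] using this

noncomputable def al : C := ((√2 : ℝ) : C)

noncomputable def aH (θ : ℤ × ℤ → C) (i j : ℤ) : C := i • al + θ (i, j) - θ (i, j - 1)
noncomputable def aV (θ : ℤ × ℤ → C) (i j : ℤ) : C := θ (i - 1, j) - θ (i, j)

noncomputable def D (θ : ℤ × ℤ → C) (i j : ℤ) : ℝ :=
  √2 - ((r (aH θ i j) - r (aH θ (i - 1) j)) + (r (aV θ i j) - r (aV θ i (j - 1))))

noncomputable def X (θ : ℤ × ℤ → C) (v : ℤ × ℤ) : Fin 4 := Fin.ofNat 4 ⌊D θ v.1 v.2⌋.toNat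

lemma X_val (θ : ℤ × ℤ → C) (i j : ℤ) : (((X θ (i, j)).val : ℕ) : ℝ) = D θ i j := by
  have h0 : ((D θ i j : ℝ) : C) = 0 := by
    unfold D
    simp only [AddCircle.coe_sub, AddCircle.coe_add, r_coe, aH, aV, sub_smul, one_smul]
    unfold al; abel
  obtain ⟨n, hn⟩ := (AddCircle.coe_eq_zero_iff _).1 h0
  simp only [zsmul_eq_mul, mul_one] at hn
  have s1 : (1 : ℝ) < √2 := by rw [Real.lt_sqrt (by norm_num)]; norm_num
  have s2 : √2 < 2 := by rw [Real.sqrt_lt' (by norm_num)]; norm_num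
  have b1 := r_bd (aH θ i j)
  have b2 := r_bd (aH θ (i - 1) j)
  have b3 := r_bd (aV θ i j)
  have b4 := r_bd (aV θ i (j - 1))
  have l1 : (-1 : ℝ) < n := by rw [hn]; unfold D; linarith
  have l2 : (n : ℝ) < 4 := by rw [hn]; unfold D; linarith
  have m1 : -1 < n := by exact_mod_cast l1
  have m2 : n < 4 := by exact_mod_cast l2
  unfold X
  simp only [← hn, Int.floor_intCast, Fin.val_ofNat]
  have : ((n.toNat % 4 : ℕ) : ℤ) = n := by omega
  rw [← Int.cast_natCast, this]

lemma X_meas {m : MeasurableSpace (ℤ × ℤ → C)} (v : ℤ × ℤ)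
    (h : ∀ p : ℤ × ℤ, v.1 - 1 ≤ p.1 → p.1 ≤ v.1 → v.2 - 1 ≤ p.2 → p.2 ≤ v.2 →
      Measurable[m] (fun θ : ℤ × ℤ → C => θ p)) : Measurable[m] (fun θ => X θ v) := by
  have a := h (v.1, v.2) (by simp) (by simp) (by simp) (by simp)
  have b := h (v.1 - 1, v.2) (by simp) (by simp) (by simp) (by simp)
  have c := h (v.1, v.2 - 1) (by simp) (by simp) (by simp) (by simp)
  have d := h (v.1 - 1, v.2 - 1) (by simp) (by simp) (by simp) (by simp)
  have e : Measurable[m] (fun θ => D θ v.1 v.2) := by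
    unfold D aH aV
    exact measurable_const.sub
      (((r_meas.comp ((measurable_const.add a).sub c)).sub
        (r_meas.comp ((measurable_const.add b).sub d))).add
      ((r_meas.comp (b.sub a)).sub (r_meas.comp (d.sub c))))
  exact (measurable_from_top (f := fun z : ℤ => Fin.ofNat 4 z.toNat)).comp e.floor

noncomputable def PP : Measure (ℤ × ℤ → C) :=
  Measure.infinitePi (fun _ => AddCircle.haarAddCircle)

instance : IsProbabilityMeasure PP := by unfold PP; infer_instance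

lemma X_meas' : Measurable X :=
  measurable_pi_lambda _ (fun v => X_meas v (fun p _ _ _ _ => measurable_pi_apply p))

lemma shift_inv : ShiftInvariant PP X := by
  intro v
  let c : ℤ × ℤ → C := fun p => (v.1 * p.2) • al
  let T1 : (ℤ × ℤ → C) → (ℤ × ℤ → C) := fun θ p => θ (p + v)
  let T2 : (ℤ × ℤ → C) → (ℤ × ℤ → C) := fun θ p => c p + θ p
  have m1 : Measurable T1 := measurable_pi_lambda _ (fun p => measurable_pi_apply _)
  have m2 : Measurable T2 :=
    measurable_pi_lambda _ (fun p => by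
      have a : Measurable (fun θ : ℤ × ℤ → C => θ p) := measurable_pi_apply p
      exact (measurable_const (a := c p)).add a)
  have p1 : PP.map T1 = PP :=
    Measure.map_infinitePi_infinitePi_of_inj (P := fun _ => AddCircle.haarAddCircle)
      (add_left_injective v)
  have p2 : PP.map T2 = PP := by
    have := Measure.infinitePi_map_pi (fun _ : ℤ × ℤ => (AddCircle.haarAddCircle : Measure C))
      (f := fun p x => c p + x) (fun p => measurable_const_add (c p))
    simp only [map_add_left_eq_self] at this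
    exact this
  have e : (fun θ u => X θ (u + v)) = X ∘ T2 ∘ T1 := by
    funext θ u
    have h1 : ∀ i j, aH (T2 (T1 θ)) i j = aH θ (i + v.1) (j + v.2) := by
      intro i j
      simp only [aH, T1, T2, c, Prod.mk_add_mk, mul_sub, sub_smul, add_smul, mul_one,
        show ∀ p : ℤ × ℤ, p + v = (p.1 + v.1, p.2 + v.2) from fun _ => rfl, sub_add_eq_add_sub]
      abel
    have h2 : ∀ i j, aV (T2 (T1 θ)) i j = aV θ (i + v.1) (j + v.2) := by
      intro i j
      simp only [aV, T1, T2, c,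
        show ∀ p : ℤ × ℤ, p + v = (p.1 + v.1, p.2 + v.2) from fun _ => rfl, sub_add_eq_add_sub]
      abel
    simp only [Function.comp, X, D, h1, h2, Prod.fst_add, Prod.snd_add, sub_add_eq_add_sub]
  rw [e, ← Measure.map_map X_meas' (m2.comp m1), ← Measure.map_map m2 m1, p1, p2]

lemma fin_dep : FinitelyDependent PP X := by
  refine ⟨2, fun S T h => ?_⟩
  let N : Set (ℤ × ℤ) → Set (ℤ × ℤ) := fun S =>
    {p | ∃ v ∈ S, v.1 - 1 ≤ p.1 ∧ p.1 ≤ v.1 ∧ v.2 - 1 ≤ p.2 ∧ p.2 ≤ v.2}
  have dis : Disjoint (N S) (N T) := by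
    rw [Set.disjoint_left]
    rintro p ⟨a, ha, g⟩ ⟨b, hb, g'⟩
    have := h a ha b hb
    have e : dist a b ≤ 1 := by
      rw [Prod.dist_eq, max_le_iff, Int.dist_eq, Int.dist_eq, abs_le, abs_le]
      have : (-1 ≤ a.1 - b.1 ∧ a.1 - b.1 ≤ 1) ∧ (-1 ≤ a.2 - b.2 ∧ a.2 - b.2 ≤ 1) := by omega
      exact_mod_cast this
    norm_num at this
    linarith
  have I : iIndepFun (fun (p : ℤ × ℤ) (θ : ℤ × ℤ → C) => θ p) PP :=
    iIndepFun_infinitePi (X := fun _ x => x) (fun _ => measurable_id)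
  rw [iIndepFun_iff_iIndep] at I
  have J := indep_iSup_of_disjoint (fun p => (measurable_pi_apply p).comap_le) I dis
  have le : ∀ S : Set (ℤ × ℤ), MeasurableSpace.comap (fun θ => fun v : S => X θ v) inferInstance ≤
      ⨆ p ∈ N S, MeasurableSpace.comap (fun θ : ℤ × ℤ → C => θ p) inferInstance := by
    intro S
    apply Measurable.comap_le
    refine @measurable_pi_lambda _ _ _ (_) _ _ (fun v => X_meas v.1 (fun p g1 g2 g3 g4 => ?_))
    apply Measurable.of_comap_le
    exact le_iSup₂_of_le (f := fun p (_ : p ∈ N S) =>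
      MeasurableSpace.comap (fun θ : ℤ × ℤ → C => θ p) inferInstance) p ⟨v.1, v.2, g1, g2, g3, g4⟩ le_rfl
  rw [IndepFun_iff_Indep]
  exact indep_of_indep_of_le J (le S) (le T)

lemma supp_ne : (supp PP X).Nonempty := by
  let E : (B : Finset (ℤ × ℤ)) → (B → Fin 4) → Set (ℤ × ℤ → C) := fun B p => {θ | ∀ v : B, X θ v = p v}
  have h0 : PP (⋃ B, ⋃ p, ⋃ (_ : PP (E B p) = 0), E B p) = 0 :=
    measure_iUnion_null fun B => measure_iUnion_null fun p => measure_iUnion_null fun h => h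
  have : ∃ θ, θ ∉ ⋃ B, ⋃ p, ⋃ (_ : PP (E B p) = 0), E B p := by
    by_contra hn
    push Not at hn
    rw [Set.eq_univ_of_forall hn] at h0
    simp at h0
  obtain ⟨θ, hθ⟩ := this
  simp only [Set.mem_iUnion, not_exists] at hθ
  refine ⟨X θ, fun B => pos_iff_ne_zero.2 (fun h => hθ B (fun v => X θ v) ?_ (fun v => rfl))⟩
  rw [← h]
  congr 1
  ext ω; simp [E]

lemma tele (f : ℤ → ℝ) (n : ℕ) : ∑ i ∈ Finset.range n, (f i - f (i - 1)) = f (n - 1) - f (-1) := by
  induction n with
  | zero => simp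
  | succ n ih => rw [Finset.sum_range_succ, ih]; push_cast; rw [add_sub_cancel_right]; ring

lemma box (θ : ℤ × ℤ → C) (n : ℕ) :
    |∑ i ∈ Finset.range n, ∑ j ∈ Finset.range n, D θ i j - √2 * n ^ 2| ≤ 2 * n := by
  have bd : ∀ f g : ℕ → C, |∑ i ∈ Finset.range n, (r (f i) - r (g i))| ≤ n := by
    intro f g
    refine (Finset.abs_sum_le_sum_abs _ _).trans ?_
    have : ∀ i ∈ Finset.range n, |r (f i) - r (g i)| ≤ 1 := fun i _ => by
      have := r_bd (f i)
      have := r_bd (g i)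
      rw [abs_le]; constructor <;> linarith
    simpa using Finset.sum_le_sum this
  have e1 : ∑ i ∈ Finset.range n, ∑ j ∈ Finset.range n, (r (aH θ i j) - r (aH θ (i - 1) j))
      = ∑ j ∈ Finset.range n, (r (aH θ (n - 1) j) - r (aH θ (-1) j)) := by
    rw [Finset.sum_comm]
    exact Finset.sum_congr rfl (fun j _ => tele (fun i => r (aH θ i j)) n)
  have e2 : ∑ i ∈ Finset.range n, ∑ j ∈ Finset.range n, (r (aV θ i j) - r (aV θ i (j - 1)))
      = ∑ i ∈ Finset.range n, (r (aV θ i (n - 1)) - r (aV θ i (-1))) :=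
    Finset.sum_congr rfl (fun i _ => tele (fun j => r (aV θ i j)) n)
  have b1 := abs_le.1 (bd (fun j => aH θ (n - 1) j) (fun j => aH θ (-1) j))
  have b2 := abs_le.1 (bd (fun i => aV θ i (n - 1)) (fun i => aV θ i (-1)))
  have : ∑ i ∈ Finset.range n, ∑ j ∈ Finset.range n, D θ i j = √2 * n ^ 2 -
      (∑ j ∈ Finset.range n, (r (aH θ (n - 1) j) - r (aH θ (-1) j)) +
        ∑ i ∈ Finset.range n, (r (aV θ i (n - 1)) - r (aV θ i (-1)))) := by
    rw [← e1, ← e2, ← Finset.sum_add_distrib]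
    simp only [← Finset.sum_add_distrib]
    unfold D
    rw [Finset.sum_congr rfl (fun i _ => Finset.sum_sub_distrib _ _), Finset.sum_sub_distrib]
    simp; ring
  rw [this, abs_le]
  constructor <;> linarith [b1.1, b1.2, b2.1, b2.2]

lemma per_sum (f : ℕ → ℝ) (m : ℕ) (h : ∀ i, f (m + i) = f i) (t : ℕ) :
    ∑ i ∈ Finset.range (t * m), f i = t * ∑ i ∈ Finset.range m, f i := by
  induction t with
  | zero => simp
  | succ t ih =>
    rw [show (t + 1) * m = m + t * m by ring, Finset.sum_range_add]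
    simp only [h, ih]; push_cast; ring

theorem result : ∃ (Ω : Type) (_ : MeasurableSpace Ω) (P : Measure Ω) (_ : IsProbabilityMeasure P)
    (X : Ω → ℤ × ℤ → Fin 4), Measurable X ∧ ShiftInvariant P X ∧ FinitelyDependent P X ∧
      (supp P X).Nonempty ∧ ∀ x ∈ supp P X, ¬ Periodic x := by
  refine ⟨_, inferInstance, PP, inferInstance, X, X_meas', shift_inv, fin_dep, supp_ne, ?_⟩
  intro x hx hp
  have bx : ∀ n : ℕ, |∑ i ∈ Finset.range n, ∑ j ∈ Finset.range n, (((x (i, j)).val : ℕ) : ℝ)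
      - √2 * n ^ 2| ≤ 2 * n := by
    intro n
    obtain ⟨θ, hθ⟩ := nonempty_of_measure_ne_zero (hx ((Finset.range n ×ˢ Finset.range n).image
      (fun p => ((p.1 : ℤ), (p.2 : ℤ))))).ne'
    have := box θ n
    rw [Finset.sum_congr rfl (fun i hi => Finset.sum_congr rfl (fun j hj => by
      rw [← hθ (i, j) (Finset.mem_image.2 ⟨(i, j), Finset.mem_product.2 ⟨hi, hj⟩, rfl⟩), X_val]))]
    exact this
  set m := (stab x).index with hm
  have m0 : m ≠ 0 := hp.index_ne_zero
  have q1 : ∀ u, x (u + m • (1, 0)) = x u := (stab x).nsmul_index_mem (1, 0)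
  have q2 : ∀ u, x (u + m • (0, 1)) = x u := (stab x).nsmul_index_mem (0, 1)
  let S : ℕ := ∑ i ∈ Finset.range m, ∑ j ∈ Finset.range m, (x (i, j)).val
  have tot : ∀ t : ℕ, ∑ i ∈ Finset.range (t * m), ∑ j ∈ Finset.range (t * m),
      (((x (i, j)).val : ℕ) : ℝ) = t * (t * S) := by
    intro t
    rw [per_sum _ m (fun i => Finset.sum_congr rfl (fun j _ => by
      rw [← q1 (i, j)]; simp [add_comm]))]
    congr 1
    simp only [S]
    push_cast
    rw [Finset.mul_sum]
    refine Finset.sum_congr rfl (fun i _ => per_sum _ m (fun j => ?_) t)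
    rw [← q2 (i, j)]; simp [add_comm]
  have eq : (S : ℝ) = √2 * m ^ 2 := by
    by_contra hne
    have pos : 0 < |(S : ℝ) - √2 * m ^ 2| := abs_pos.2 (sub_ne_zero.2 hne)
    obtain ⟨t, ht⟩ := exists_nat_gt (2 * m / |(S : ℝ) - √2 * m ^ 2|)
    rw [div_lt_iff₀ pos] at ht
    have b := bx (t * m)
    rw [tot] at b
    push_cast at b
    rw [show (t : ℝ) * (t * S) - √2 * (t * m) ^ 2 = t * (t * (S - √2 * m ^ 2)) by ring, abs_mul,
      abs_mul, Nat.abs_cast] at b
    have t0 : (0 : ℝ) < t := by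
      rcases Nat.eq_zero_or_pos t with h | h
      · subst h
        have : (0 : ℝ) ≤ m := Nat.cast_nonneg m
        simp at ht; linarith
      · exact_mod_cast h
    nlinarith
  have irr : Irrational (√2 * ((m ^ 2 : ℕ) : ℝ)) := irrational_sqrt_two.mul_natCast (pow_ne_zero 2 m0)
  push_cast at irr
  exact irr.ne_nat S eq.symm

end Pool.Agent.Results.MP_5c5aaa_pr.NoPeriodic
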